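import Pool.Agent.H11.Part
import Pool.Agent.H11.Quart

set_option autoImplicit false

namespace Pool.Agent.Results.MP_5b98da_lc.NPHard
open Finset Pool.Agent.H11.PT

/-- equitably `k`-choosable: every `k`-assignment has a proper list colouring using each colour at
most `⌈|V| / k⌉` times -/
def EqChoosable {V : Type} [Fintype V] (G : SimpleGraph V) (k : ℕ) : Prop :=
  ∀ L : V → Finset ℕ, (∀ v, (L v).card = k) → ∃ f : V → ℕ, (∀ v, f v ∈ L v) ∧
    (∀ u v, G.Adj u v → f u ≠ f v) ∧
    ∀ c, (univ.filter fun v => f v = c).card ≤ ⌈(Fintype.card V : ℚ) / k⌉₊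

/-- disjoint union of the stars `K_{1, m i}`: `⟨i, none⟩` is a centre, `⟨i, some _⟩` its leaves -/
def stars {ι : Type} (m : ι → ℕ) : SimpleGraph (Σ i, Option (Fin (m i))) where
  Adj u v := u.1 = v.1 ∧ u.2.isSome ≠ v.2.isSome
  symm := ⟨fun _ _ h => ⟨h.1.symm, h.2.symm⟩⟩
  loopless := ⟨fun _ h => h.2 rfl⟩

/-- STARS EQUITABLE 2-CHOOSABILITY, the star sizes written in binary -/
def Yes (l : List (List Bool)) : Prop := EqChoosable (stars fun i : Fin l.length => bin l[i]) 2

theorem greedy {V : Type} [Fintype V] [DecidableEq V] (L : V → Finset ℕ) (hL : ∀ v, (L v).card = 2)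
    (cap : ℕ) (hc : Fintype.card V ≤ 2 * cap) (D : Finset V) (g : V → ℕ)
    (hg : ∀ c, (D.filter fun v => g v = c).card ≤ cap) :
    ∃ f : V → ℕ, (∀ v ∈ D, f v = g v) ∧ (∀ v ∉ D, f v ∈ L v) ∧
      ∀ c, (univ.filter fun v => f v = c).card ≤ cap := by
  induction h : Dᶜ.card generalizing D g with
  | zero =>
    obtain rfl : D = univ := by simpa using h
    exact ⟨g, fun _ _ => rfl, by simp, hg⟩
  | succ n ih =>
    obtain ⟨v, hv⟩ : Dᶜ.Nonempty := card_pos.1 (by omega)
    rw [mem_compl] at hv
    obtain ⟨z, hz, lt⟩ : ∃ z ∈ L v, (D.filter fun v => g v = z).card < cap := by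
      obtain ⟨x, y, ne, e⟩ := card_eq_two.1 (hL v)
      have a := card_union_of_disjoint (s := D.filter fun v => g v = x) (t := D.filter fun v => g v = y)
        (disjoint_filter.2 fun _ _ a b => ne (a.symm.trans b))
      have b := card_le_card (union_subset (filter_subset (fun v => g v = x) D)
        (filter_subset (fun v => g v = y) D))
      have c := card_add_card_compl D
      by_cases d : (D.filter fun v => g v = x).card < cap
      · exact ⟨x, by simp [e], d⟩
      · exact ⟨y, by simp [e], by omega⟩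
    obtain ⟨f, f1, f2, f3⟩ := ih (insert v D) (Function.update g v z) (fun c => by
      have : (D.filter fun u => Function.update g v z u = c) = D.filter fun u => g u = c :=
        filter_congr fun u hu => by rw [Function.update_of_ne (by rintro rfl; exact hv hu)]
      rw [filter_insert, this, Function.update_self]
      split_ifs with e
      · subst e; exact (card_insert_le _ _).trans lt
      · exact hg c) (by rw [compl_insert, card_erase_of_mem (mem_compl.2 hv)]; omega)
    refine ⟨f, fun u hu => ?_, fun u hu => ?_, f3⟩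
    · rw [f1 u (mem_insert_of_mem hu), Function.update_of_ne (by rintro rfl; exact hv hu)]
    · by_cases e : u = v
      · rw [e, f1 v (mem_insert_self _ _), Function.update_self]; exact hz
      · exact f2 u (by simp [e, hu])

theorem core {ι : Type} [Fintype ι] [DecidableEq ι] (w : ι → Bool → ℕ → ℕ) (m : ι → ℕ) (cap X : ℕ)
    (h1 : ∀ i t c, w i t c + w i (!t) c ≤ m i + 1)
    (h2 : ∀ c d, c ≠ d → ∀ i, (∀ t, w i t c + w i t d + w i (!t) c + w i (!t) d ≤ m i + 1) ∨
      ((∃ t, w i t c ≤ 1 ∧ w i t d ≤ m i ∧ w i (!t) d ≤ 1 ∧ w i (!t) c ≤ m i) ∧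
        ∀ e, e ≠ c → e ≠ d → ∀ t t', w i t c + w i t d + w i t' e ≤ m i + 1))
    (h3 : ∀ i t c d e, c ≠ d → e ≠ c → e ≠ d → w i t c + w i t d + w i t e ≤ m i + 1)
    (hV : ∑ i, (m i + 1) ≤ 2 * cap) (hX : ∀ i, m i + 1 ≤ X ∧ X ≤ 2 * (m i + 1)) (hc : 7 * X ≤ cap)
    (H : ∀ J : Finset ι, J.card ≤ 3 → ∀ a b, 2 * (a + b) ≤ ∑ j ∈ J, (m j + 1) → ∃ P : ι → Bool,
      (∑ j ∈ Jᶜ, if P j then m j else 1) + a ≤ cap ∧ (∑ j ∈ Jᶜ, if P j then 1 else m j) + b ≤ cap) :
    ∃ s : ι → Bool, ∀ c, ∑ i, w i (s i) c ≤ cap := by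
  classical
  by_contra! hn
  choose vi hv using hn
  have h4 : ∀ i t c d, c ≠ d → w i t c + w i t d ≤ m i + 1 := fun i t c d n =>
    le_trans (Nat.le_add_right _ _) (h3 i t c d (c + d + 1) n (by omega) (by omega))
  have h5 : ∀ i t c, w i t c ≤ m i + 1 := fun i t c => le_trans (Nat.le_add_right _ _) (h1 i t c)
  obtain ⟨s, i, n⟩ : ∃ s i, vi s ≠ vi (Function.update s i (!s i)) := by
    by_contra! e
    have k : ∀ S : Finset ι, vi (fun j => decide (j ∈ S)) = vi fun _ => false := fun S => by
      induction S using Finset.induction_on with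
      | empty => simp
      | insert a S ha ih =>
        rw [← ih, e (fun j => decide (j ∈ S)) a]
        congr; ext j; by_cases j = a <;> simp [*]
    have a := hv fun j => decide (j ∈ univ)
    have b := hv fun _ => false
    have c := sum_le_sum fun i (_ : i ∈ univ) => h1 i false (vi fun _ => false)
    rw [k] at a
    simp only [mem_univ, decide_true, sum_add_distrib, Bool.not_false] at a c hV
    omega
  have a1 := hv s
  have a2 := hv (Function.update s i (!s i))
  generalize vi s = c at *
  generalize vi (Function.update s i (!s i)) = d at *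
  set B := univ.filter fun j => ∀ t, w j t c + w j t d + w j (!t) c + w j (!t) d ≤ m j + 1 with hB
  have hs : ∀ J : Finset ι, ∑ j ∈ J, (m j + 1) ≤ J.card * X ∧ J.card * X ≤ 2 * ∑ j ∈ J, (m j + 1) :=
    fun J => ⟨sum_le_card_nsmul _ _ _ fun j _ => (hX j).1,
      by rw [mul_sum]; exact card_nsmul_le_sum _ _ _ fun j _ => (hX j).2⟩
  have up : ∀ x, ∑ j, w j (Function.update s i (!s i) j) x =
      w i (!s i) x + ∑ j ∈ univ.erase i, w j (s j) x := fun x => by
    rw [← add_sum_erase _ _ (mem_univ i), Function.update_self]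
    exact congrArg _ (sum_congr rfl fun j hj => by rw [Function.update_of_ne (ne_of_mem_erase hj)])
  have xi := hX i
  by_cases cb : B.card ≤ 3
  · have : ∀ j, ∃ t, j ∈ B → 2 * (w j t c + w j t d) ≤ m j + 1 := fun j => by
      by_cases h : j ∈ B
      · have := (mem_filter.1 h).2 true
        rw [Bool.not_true] at this
        by_cases k : 2 * (w j true c + w j true d) ≤ m j + 1
        · exact ⟨true, fun _ => k⟩
        · exact ⟨false, fun _ => by omega⟩
      · exact ⟨true, fun k => absurd k h⟩
    choose τ hτ using this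
    have hA := fun j (h : j ∈ Bᶜ) => (h2 c d n j).resolve_left (by simpa [hB] using h)
    have : ∀ j, ∃ t, j ∈ Bᶜ → w j t c ≤ 1 ∧ w j t d ≤ m j ∧ w j (!t) d ≤ 1 ∧ w j (!t) c ≤ m j :=
      fun j => by
        by_cases h : j ∈ Bᶜ
        · exact (hA j h).1.imp fun _ k _ => k
        · exact ⟨true, fun k => absurd k h⟩
    choose ρ hρ using this
    obtain ⟨P, p1, p2⟩ := H B cb (∑ j ∈ B, w j (τ j) c) (∑ j ∈ B, w j (τ j) d)
      (by rw [← sum_add_distrib, mul_sum]; exact sum_le_sum hτ)
    have a3 := hv fun j => if j ∈ B then τ j else if P j then !ρ j else ρ j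
    generalize vi _ = e at a3
    rw [← sum_add_sum_compl B, sum_congr rfl fun j (h : j ∈ B) => by rw [if_pos h],
      sum_congr rfl fun j (h : j ∈ Bᶜ) => by rw [if_neg (mem_compl.1 h)]] at a3
    by_cases ec : e = c
    · have : ∑ j ∈ Bᶜ, w j (if P j then !ρ j else ρ j) c ≤ ∑ j ∈ Bᶜ, if P j then m j else 1 :=
        sum_le_sum fun j h => by have := hρ j h; split_ifs <;> omega
      subst ec; omega
    by_cases ed : e = d
    · have : ∑ j ∈ Bᶜ, w j (if P j then !ρ j else ρ j) d ≤ ∑ j ∈ Bᶜ, if P j then 1 else m j :=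
        sum_le_sum fun j h => by have := hρ j h; split_ifs <;> omega
      subst ed; omega
    have b1 := sum_le_sum fun j (h : j ∈ Bᶜ) => (hA j h).2 e ec ed (s j) (if P j then !ρ j else ρ j)
    have b2 := sum_le_sum fun j (_ : j ∈ B) => h4 j (s j) c d n
    have b3 := sum_le_sum fun j (_ : j ∈ B) => h5 j (τ j) e
    have b4 := add_sum_erase univ (fun j => w j (s j) d) (mem_univ i)
    have b5 := h5 i (!s i) d
    have b6 := (hs B).1.trans (Nat.mul_le_mul_right X cb)
    rw [up] at a2
    rw [← sum_add_sum_compl B] at a1 b4 hV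
    simp only [sum_add_distrib] at b1 b2 b3 b6 hV
    omega
  · have iB : i ∉ B := fun h => by
      have := (mem_filter.1 h).2 (s i)
      have b := sum_le_sum fun j (_ : j ∈ univ.erase i) => h4 j (s j) c d n
      rw [up] at a2
      rw [← add_sum_erase _ _ (mem_univ i)] at a1 hV
      rw [sum_add_distrib] at b
      omega
    obtain ⟨J, jB, jc⟩ := exists_subset_card_eq (show 4 ≤ B.card by omega)
    have iJ : i ∉ J := fun h => iB (jB h)
    have dec : ∀ T : ι → ℕ, ∑ j, T j = T i + ∑ j ∈ J, T j + ∑ j ∈ (insert i J)ᶜ, T j := fun T => by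
      rw [← sum_add_sum_compl (insert i J), sum_insert iJ]
    have de : ∀ (a : Bool) x, ∑ j, w j (if j = i then a else if j ∈ J then !s j else s j) x =
        w i a x + ∑ j ∈ J, w j (!s j) x + ∑ j ∈ (insert i J)ᶜ, w j (s j) x := fun a x => by
      rw [dec, if_pos rfl, sum_congr rfl fun j (h : j ∈ J) => by
        rw [if_neg (by rintro rfl; exact iJ h), if_pos h], sum_congr rfl fun j (h : j ∈ (insert i J)ᶜ) => by
        rw [if_neg (by rintro rfl; simp at h), if_neg fun k => by simp [k] at h]]
    have a3 := hv fun j => if j = i then s i else if j ∈ J then !s j else s j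
    have a4 := hv fun j => if j = i then !s i else if j ∈ J then !s j else s j
    rw [de] at a3 a4
    generalize vi _ = e at a3
    generalize vi _ = e' at a4
    have b0 := add_sum_erase univ (fun j => w j (s j) d) (mem_univ i)
    rw [up] at a2
    rw [dec] at a1 b0 hV
    have b1 := sum_le_sum fun j (h : j ∈ J) => (mem_filter.1 (jB h)).2 (s j)
    have b2 := sum_le_sum fun j (_ : j ∈ (insert i J)ᶜ) => h4 j (s j) c d n
    have b3 := hs J
    have b4 := h4 i (s i) c d n
    have b5 := h4 i (!s i) c d n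
    have o : ∀ x a, x ≠ c → x ≠ d → w i a x + ∑ j ∈ J, w j (!s j) x +
        ∑ j ∈ (insert i J)ᶜ, w j (s j) x ≤ cap := fun x a xc xd => by
      have := sum_le_sum fun j (_ : j ∈ (insert i J)ᶜ) => h3 j (s j) c d x n xc xd
      have := sum_le_sum fun j (_ : j ∈ J) => h5 j (!s j) x
      have := h5 i a x
      simp only [sum_add_distrib, jc] at *
      omega
    have o1 := o e (s i)
    have o2 := o e' (!s i)
    simp only [sum_add_distrib, jc] at b1 b2 b3 hV
    by_cases ec : e = c
    · by_cases ed : e' = d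
      · subst ec ed; omega
      · by_cases ec' : e' = c
        · subst ec'; omega
        · exact absurd (o2 ec' ed) (by omega)
    · by_cases ed : e = d
      · subst ed; omega
      · exact absurd (o1 ec ed) (by omega)

theorem bd {n : ℕ} (r : ℕ) (a : Fin n → ℕ) (h : ∀ k, a k ≤ r) : ∑ k, a k ≤ n * r := by
  simpa using sum_le_card_nsmul univ a r fun k _ => h k

theorem ceil {ι : Type} [Fintype ι] (m : ι → ℕ) (cap : ℕ) (hV : ∑ i, (m i + 1) = 2 * cap) :
    Fintype.card (Σ i, Option (Fin (m i))) = 2 * cap ∧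
    ⌈(Fintype.card (Σ i, Option (Fin (m i))) : ℚ) / (2 : ℕ)⌉₊ = cap := by
  have : Fintype.card (Σ i, Option (Fin (m i))) = 2 * cap := by simp [← hV]
  exact ⟨this, by rw [this]; simp⟩

theorem choos {ι : Type} [Fintype ι] [DecidableEq ι] (m : ι → ℕ) (cap X : ℕ)
    (hV : ∑ i, (m i + 1) = 2 * cap) (hX : ∀ i, m i + 1 ≤ X ∧ X ≤ 2 * (m i + 1)) (hc : 7 * X ≤ cap)
    (H : ∀ J : Finset ι, J.card ≤ 3 → ∀ a b, 2 * (a + b) ≤ ∑ j ∈ J, (m j + 1) → ∃ P : ι → Bool,
      (∑ j ∈ Jᶜ, if P j then m j else 1) + a ≤ cap ∧ (∑ j ∈ Jᶜ, if P j then 1 else m j) + b ≤ cap) :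
    EqChoosable (stars m) 2 := by
  intro L hL
  choose p q hp hq using fun v => card_eq_two.1 (hL v)
  obtain ⟨col, c1, c2⟩ : ∃ col : ι → Bool → ℕ, (∀ i t, col i t ≠ col i (!t)) ∧
      ∀ i t, col i t ∈ L ⟨i, none⟩ := ⟨fun i t => if t then p ⟨i, none⟩ else q ⟨i, none⟩,
    fun i t => by cases t <;> simp [hp, (hp _).symm], fun i t => by cases t <;> simp [hq]⟩
  obtain ⟨u, hu⟩ : ∃ u : ∀ i, ℕ → ℕ → Fin (m i) → ℕ, ∀ i x c k, u i x c k =
    if (p ⟨i, some k⟩ = x ∧ q ⟨i, some k⟩ = c) ∨ (p ⟨i, some k⟩ = c ∧ q ⟨i, some k⟩ = x)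
      then 1 else 0 := ⟨_, fun _ _ _ _ => rfl⟩
  obtain ⟨s, hs⟩ := core (fun i t c => (if col i t = c then 1 else 0) + ∑ k, u i (col i t) c k) m cap X
    (fun i t c => by
      have := c1 i t
      have := bd 1 (fun k => u i (col i t) c k + u i (col i (!t)) c k) fun k => by
        have := hp ⟨i, some k⟩; simp only [hu]; split_ifs <;> omega
      simp only [sum_add_distrib] at this
      split_ifs <;> omega)
    (fun c d n i => by
      have b0 : ∀ x, ∑ k, u i x x k ≤ m i * 0 := fun x => bd 0 _ fun k => by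
        have := hp ⟨i, some k⟩; simp only [hu]; split_ifs <;> omega
      have b1 : ∀ x y, ∑ k, u i x y k ≤ m i * 1 := fun x y => bd 1 _ fun k => by
        simp only [hu]; split_ifs <;> omega
      by_cases A : ∃ t, col i t = c ∧ col i (!t) = d
      · obtain ⟨t, rfl, rfl⟩ := A
        refine Or.inr ⟨⟨t, ?_⟩, fun e ec ed t₁ t₂ => ?_⟩
        · have := b0 (col i t)
          have := b0 (col i (!t))
          have := b1 (col i t) (col i (!t))
          have := b1 (col i (!t)) (col i t)
          simp only [if_true, if_neg n, if_neg n.symm]; omega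
        · have k : ∀ t', col i t' = col i t ∨ col i t' = col i (!t) := fun t' => by
            cases t <;> cases t' <;> simp
          have := k t₁
          have := k t₂
          have := bd 1 (fun k => u i (col i t₁) (col i t) k + u i (col i t₁) (col i (!t)) k +
            u i (col i t₂) e k) fun k => by
              have := hp ⟨i, some k⟩; simp only [hu]; split_ifs <;> omega
          simp only [sum_add_distrib] at this
          split_ifs <;> omega
      · refine Or.inl fun t => ?_
        have := c1 i t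
        have : ¬ (col i t = c ∧ col i (!t) = d) := fun h => A ⟨t, h⟩
        have : ¬ (col i (!t) = c ∧ col i t = d) := fun h => A ⟨!t, by rwa [Bool.not_not]⟩
        have := bd 1 (fun k => u i (col i t) c k + u i (col i t) d k + u i (col i (!t)) c k +
          u i (col i (!t)) d k) fun k => by
            have := hp ⟨i, some k⟩; simp only [hu]; split_ifs <;> omega
        simp only [sum_add_distrib] at this
        split_ifs <;> omega)
    (fun i t c d e n ec ed => by
      have := bd 1 (fun k => u i (col i t) c k + u i (col i t) d k + u i (col i t) e k) fun k => by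
        have := hp ⟨i, some k⟩; simp only [hu]; split_ifs <;> omega
      simp only [sum_add_distrib] at this
      split_ifs <;> omega) hV.le hX hc H
  obtain ⟨f, f1, f2, f3⟩ := greedy L hL cap (ceil m cap hV).1.le
    (univ.filter fun v => col v.1 (s v.1) ∈ L v)
    (fun v => if v.2.isSome then (if p v = col v.1 (s v.1) then q v else p v) else col v.1 (s v.1))
    fun c => by
      refine le_trans ?_ (hs c)
      rw [filter_filter, card_filter, Fintype.sum_sigma]
      refine sum_le_sum fun i _ => ?_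
      rw [Fintype.sum_option]
      refine add_le_add (by simp [c2]) (sum_le_sum fun k _ => ?_)
      simp only [hu, hq, mem_insert, mem_singleton, Option.isSome_some, if_true]
      split_ifs <;> omega
  have k : ∀ i, f ⟨i, none⟩ = col i (s i) := fun i => by rw [f1 _ (by simp [c2])]; simp
  have k2 : ∀ i a, f ⟨i, some a⟩ ∈ L ⟨i, some a⟩ ∧ f ⟨i, some a⟩ ≠ col i (s i) := fun i a => by
    by_cases h : col i (s i) ∈ L ⟨i, some a⟩
    · have := hp ⟨i, some a⟩
      rw [f1 _ (by simpa using h)]
      simp only [hq, mem_insert, mem_singleton, Option.isSome_some, if_true] at h ⊢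
      split_ifs <;> omega
    · have := f2 ⟨i, some a⟩ (by simpa using h)
      exact ⟨this, fun e => h (e ▸ this)⟩
  refine ⟨f, ?_, ?_, fun c => (ceil m cap hV).2.symm ▸ f3 c⟩
  · rintro ⟨i, _ | a⟩
    · exact k i ▸ c2 _ _
    · exact (k2 i a).1
  · rintro ⟨i, _ | a⟩ ⟨j, _ | b⟩ ⟨e, h⟩ <;> obtain rfl : i = j := e
    · simp at h
    · exact k i ▸ (k2 i b).2.symm
    · exact k i ▸ (k2 i a).2
    · simp at h

theorem split {ι : Type} [Fintype ι] (m : ι → ℕ) (cap : ℕ) (hV : ∑ i, (m i + 1) = 2 * cap)
    (h : EqChoosable (stars m) 2) : ∃ P : ι → Bool,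
      (∑ j, if P j then m j else 1) ≤ cap ∧ (∑ j, if P j then 1 else m j) ≤ cap := by
  obtain ⟨f, f1, f2, f3⟩ := h (fun _ => {0, 1}) fun _ => rfl
  rw [(ceil m cap hV).2] at f3
  have k : ∀ c, c ≤ 1 → (∑ j, if f ⟨j, none⟩ = c then 1 else m j) ≤ cap := fun c hc => by
    refine le_trans ?_ (f3 c)
    rw [card_filter, Fintype.sum_sigma]
    refine sum_le_sum fun i _ => ?_
    rw [Fintype.sum_option]
    split_ifs with e
    · omega
    · rw [sum_congr rfl fun a _ => if_pos ?_]; · simp
      have := f1 ⟨i, none⟩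
      have := f1 ⟨i, some a⟩
      have := f2 ⟨i, none⟩ ⟨i, some a⟩ ⟨rfl, by simp⟩
      simp only [mem_insert, mem_singleton] at *; omega
  refine ⟨fun j => decide (f ⟨j, none⟩ = 1), le_trans (le_of_eq (sum_congr rfl fun j _ => ?_)) (k 0 (by omega)),
    by simpa using k 1 le_rfl⟩
  have := f1 ⟨j, none⟩
  simp only [mem_insert, mem_singleton, decide_eq_true_eq] at *
  split_ifs <;> omega

theorem arith {ι : Type} [Fintype ι] [DecidableEq ι] (f m : ι → ℕ) (U n : ℕ) (D E : Finset ι)
    (hm : ∀ j, m j = 2 * ((if j ∈ E then 3 else 2) * U + f j) + 1) (dj : Disjoint D E)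
    (h0 : ∀ j ∈ D ∪ E, f j = 0) (cD : D.card = n + 20) (cE : E.card = 4)
    (cI : Fintype.card ι = 2 * n + 24) (hU : ∑ j, f j < U) :
    (∃ P : ι → Bool, 2 * (∑ j, if P j then f j else 0) = ∑ j, f j) ↔ EqChoosable (stars m) 2 := by
  obtain ⟨y, hy⟩ : ∃ y : ι → ℕ, ∀ j, y j = (if j ∈ E then 3 else 2) * U + f j := ⟨_, fun _ => rfl⟩
  simp only [← hy] at hm
  have y1 : ∀ j, 2 * U ≤ y j ∧ y j ≤ 3 * U := fun j => by
    have := single_le_sum (f := f) (fun _ _ => Nat.zero_le _) (mem_univ j)
    have := h0 j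
    rw [hy]; split_ifs with h
    · rw [this (by simp [h])]; omega
    · omega
  have sy : ∑ j, y j = (4 * n + 52) * U + ∑ j, f j := by
    simp only [hy, sum_add_distrib, ← sum_mul]
    rw [← sum_add_sum_compl E, sum_congr rfl fun j (h : j ∈ E) => if_pos h,
      sum_congr rfl fun j (h : j ∈ Eᶜ) => if_neg (mem_compl.1 h)]
    simp only [sum_const, card_compl, cE, cI, smul_eq_mul]
    congr 2; omega
  have hV : ∑ i, (m i + 1) = 2 * (∑ j, y j + (2 * n + 24)) := by
    simp only [hm, add_assoc, sum_add_distrib, ← mul_sum, sum_const, card_univ, cI, smul_eq_mul]; omega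
  have sp : ∀ (A : Finset ι) (P : ι → Bool),
      (∑ j ∈ A, if P j then m j else 1) = 2 * (∑ j ∈ A, if P j then y j else 0) + A.card ∧
      (∑ j ∈ A, if P j then 1 else m j) + 2 * (∑ j ∈ A, if P j then y j else 0) =
        2 * ∑ j ∈ A, y j + A.card := fun A P => by
    rw [card_eq_sum_ones, mul_sum, mul_sum, ← sum_add_distrib, ← sum_add_distrib, ← sum_add_distrib]
    exact ⟨sum_congr rfl fun j _ => by rw [hm]; split_ifs <;> omega,
      sum_congr rfl fun j _ => by rw [hm]; split_ifs <;> omega⟩
  refine ⟨fun ⟨P, hP⟩ => choos m _ (6 * U + 2) hV (fun i => by have := y1 i; have := hm i; omega)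
    (by rw [sy, add_mul]; omega) fun J cJ a b hab => ?_, fun h => ?_⟩
  · have hD : ∀ k, 2 ≤ k → k ≤ 2 * n + 34 → ∃ Q ⊆ (D ∪ E) \ J, ∑ j ∈ Q, y j = k * U := fun k k1 k2 => by
      obtain ⟨Q, q1, q2⟩ := exists_subset_card_eq (s := D \ J) (n := k / 2 - k % 2)
        (by have := le_card_sdiff J D; omega)
      obtain ⟨R, r1, r2⟩ := exists_subset_card_eq (s := E \ J) (n := k % 2)
        (by have := le_card_sdiff J E; omega)
      refine ⟨Q ∪ R, by rw [union_sdiff_distrib]; exact union_subset_union q1 r1, ?_⟩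
      rw [sum_union (dj.mono (q1.trans sdiff_subset) (r1.trans sdiff_subset)),
        sum_congr rfl fun j (h : j ∈ Q) => show y j = 2 * U by
          have := (mem_sdiff.1 (q1 h)).1
          rw [hy, if_neg (disjoint_left.1 dj this), h0 j (by simp [this])]; rfl,
        sum_congr rfl fun j (h : j ∈ R) => show y j = 3 * U by
          have := (mem_sdiff.1 (r1 h)).1
          rw [hy, if_pos this, h0 j (by simp [this])]; rfl]
      simp only [sum_const, q2, r2, smul_eq_mul, ← mul_assoc, ← add_mul]
      congr 1; omega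
    have hQ : ∀ Q ⊆ Jᶜ, (∑ j ∈ Jᶜ, if decide (j ∈ Q) then y j else 0) = ∑ j ∈ Q, y j := fun Q h => by
      simp [inter_eq_right.2 h]
    have e1 := sum_add_sum_compl J y
    have e2 := card_add_card_compl J
    have e3 : ∑ j ∈ J, (m j + 1) = 2 * (∑ j ∈ J, y j + J.card) := by
      simp only [hm, add_assoc, sum_add_distrib, ← mul_sum, sum_const, smul_eq_mul]; omega
    suffices ∃ Q ⊆ Jᶜ, 2 * ∑ j ∈ Q, y j + a ≤ ∑ j, y j + J.card ∧
        ∑ j ∈ Jᶜ, y j + b ≤ 2 * ∑ j ∈ Q, y j + ∑ j ∈ J, y j + J.card by
      obtain ⟨Q, q1, q2⟩ := this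
      have := sp Jᶜ fun j => decide (j ∈ Q)
      rw [hQ Q q1] at this
      exact ⟨fun j => decide (j ∈ Q), by beta_reduce; omega⟩
    rcases J.eq_empty_or_nonempty with rfl | ⟨j, hj⟩
    · obtain ⟨S, hS⟩ : ∃ S, S = (D ∪ E)ᶜ.filter fun j => P j := ⟨_, rfl⟩
      have s1 : S.card ≤ n := by
        have := card_filter_le (D ∪ E)ᶜ fun j => P j
        rw [card_compl, card_union_of_disjoint dj] at this
        rw [hS]; omega
      have s2 : ∑ j ∈ S, y j = S.card * (2 * U) + ∑ j, if P j then f j else 0 := by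
        rw [sum_congr rfl fun j (h : j ∈ S) => show y j = 2 * U + f j by
          rw [hy, if_neg fun k => by simp [hS, k] at h], sum_add_distrib, sum_const, smul_eq_mul,
          ← sum_add_sum_compl (D ∪ E), sum_eq_zero (s := D ∪ E) fun j h => by rw [h0 j h, ite_self], hS, sum_filter,
          zero_add]
      obtain ⟨Q, q1, q2⟩ := hD (2 * (n + 13 - S.card)) (by omega) (by omega)
      have s3 : 2 * (n + 13 - S.card) * U + S.card * (2 * U) = (2 * n + 26) * U := by
        rw [← mul_assoc, ← add_mul]; congr 1; omega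
      refine ⟨Q ∪ S, by simp, ?_⟩
      rw [sum_union (disjoint_left.2 fun j a b => by
        rw [hS] at b; exact mem_compl.1 (mem_filter.1 b).1 (mem_sdiff.1 (q1 a)).1), q2, s2]
      simp only [sum_empty, compl_empty, card_empty, add_mul, mul_assoc] at *
      omega
    · have j1 := single_le_sum (f := y) (fun _ _ => Nat.zero_le _) hj
      have j2 := (y1 j).1
      have j3 : ∑ j ∈ J, y j ≤ 3 * (3 * U) :=
        (sum_le_card_nsmul J y _ fun j _ => (y1 j).2).trans (Nat.mul_le_mul_right _ cJ)
      have j4 := card_pos.2 ⟨j, hj⟩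
      obtain ⟨N, hN⟩ : ∃ N, N + a = ∑ j, y j + J.card := ⟨_, Nat.sub_add_cancel (by omega)⟩
      have d1 := Nat.div_add_mod N (2 * U)
      have d2 := Nat.mod_lt N (show 0 < 2 * U by omega)
      rw [add_mul, mul_assoc] at sy
      obtain ⟨Q, q1, q2⟩ := hD (N / (2 * U)) ((Nat.le_div_iff_mul_le (by omega)).2 (by omega))
        (Nat.le_of_lt_succ ((Nat.div_lt_iff_lt_mul (by omega)).2 (by
          rw [Nat.succ_eq_add_one, add_assoc, add_mul, mul_mul_mul_comm]; omega)))
      rw [mul_assoc, mul_comm U] at d1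
      exact ⟨Q, fun x h => mem_compl.2 (mem_sdiff.1 (q1 h)).2, by omega⟩
  · obtain ⟨P, p1, p2⟩ := split m _ hV h
    have := sp univ P
    have e : (∑ j, if P j then y j else 0) =
        (∑ j, if P j then (if j ∈ E then 3 else 2) else 0) * U + ∑ j, if P j then f j else 0 := by
      rw [sum_mul, ← sum_add_distrib]
      exact sum_congr rfl fun j _ => by rw [hy]; split_ifs <;> omega
    have l : (∑ j, if P j then f j else 0) ≤ ∑ j, f j := sum_le_sum fun j _ => by split_ifs <;> omega
    refine ⟨P, ?_⟩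
    rw [card_univ] at this
    generalize (∑ j, if P j then (if j ∈ E then 3 else 2) else 0) = t at e
    rcases lt_trichotomy t (2 * n + 26) with k | rfl | k
    · have := Nat.mul_le_mul_right U (Nat.succ_le_of_lt k)
      simp only [add_mul, mul_assoc, Nat.succ_eq_add_one] at *; omega
    · simp only [add_mul, mul_assoc] at *; omega
    · have := Nat.mul_le_mul_right U (Nat.succ_le_of_lt k)
      simp only [add_mul, mul_assoc, Nat.succ_eq_add_one] at *; omega

def sz (l : List (List Bool)) : ℕ := (l.map List.length).sum + l.length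

def red (l : List (List Bool)) : List (List Bool) := (List.range (2 * l.length + 24)).map fun j =>
  true :: (l.getD j [] ++ (List.replicate (sz l - (l.getD j []).length) false ++
    [decide (2 * l.length + 20 ≤ j), true]))

theorem bin_lt (b : List Bool) : bin b < 2 ^ b.length := by
  simpa [bin] using Nat.ofDigits_lt_base_pow_length (b := 2) (l := b.map Bool.toNat) (by omega)
    fun x hx => by obtain ⟨a, _, rfl⟩ := List.mem_map.1 hx; exact Bool.toNat_lt a

theorem correct (l : List (List Bool)) : PART l ↔ Yes (red l) := by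
  have hl : (red l).length = 2 * l.length + 24 := by simp [red]
  have le : ∀ j, (l.getD j []).length ≤ (l.map List.length).sum := fun j => by
    by_cases h : j < l.length
    · rw [List.getD_eq_getElem _ _ h]
      exact List.single_le_sum (by simp) _ (List.mem_map_of_mem (List.getElem_mem h))
    · rw [List.getD_eq_default _ _ (not_lt.1 h)]; simp
  have z : ∀ j, l.length ≤ j → bin (l.getD j []) = 0 := fun j h => by
    rw [List.getD_eq_default _ _ h]; rfl
  have tr : ∀ F : ℕ → ℕ, (∀ j, l.length ≤ j → F j = 0) →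
      ∑ i : Fin (red l).length, F i = ∑ j ∈ range l.length, F j := fun F h => by
    rw [Fin.sum_univ_eq_sum_range]
    exact (sum_subset (range_mono (by omega)) fun j _ k => h j (by simpa using k)).symm
  refine Iff.trans ?_ (arith (fun i : Fin (red l).length => bin (l.getD i [])) _ (2 ^ sz l) l.length
    ((Ico l.length (2 * l.length + 20)).attachFin fun j h => by rw [mem_Ico] at h; omega)
    ((Ico (2 * l.length + 20) (2 * l.length + 24)).attachFin fun j h => by rw [mem_Ico] at h; omega)
    (fun j => ?_) (disjoint_left.2 fun j => by simp only [mem_attachFin, mem_Ico]; omega)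
    (fun j h => z j (by simp only [mem_union, mem_attachFin, mem_Ico] at h; omega))
    (by simp; omega) (by simp) (by simp [hl]) ?_)
  · rw [tr (fun j => bin (l.getD j [])) z]
    refine ⟨fun ⟨σ, h⟩ => ⟨fun i => σ i, ?_⟩, fun ⟨P, h⟩ =>
      ⟨fun j => if k : j < (red l).length then P ⟨j, k⟩ else false, ?_⟩⟩
    · rwa [tr (fun j => if σ j then bin (l.getD j []) else 0) fun j h => by simp only [z j h, ite_self]]
    · rw [← tr (fun j => if (if k : j < (red l).length then P ⟨j, k⟩ else false) then
        bin (l.getD j []) else 0) fun j h => by simp only [z j h, ite_self], ← h]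
      simp
  · have := le j
    have k : (l.getD j []).length + (sz l - (l.getD j []).length) = sz l := by unfold sz; omega
    have j2 := j.2
    have e : (red l)[j] = true :: (l.getD j [] ++ (List.replicate (sz l - (l.getD j []).length) false ++
        [decide (2 * l.length + 20 ≤ j), true])) := by
      rw [Fin.getElem_fin]; simp only [red, List.getElem_map, List.getElem_range]
    rw [e]
    simp only [bin, List.map_cons,
      List.map_append, Nat.ofDigits_cons, Nat.ofDigits_append, List.length_map, List.map_replicate,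
      List.length_replicate, Bool.toNat_false, Nat.ofDigits_replicate_zero, zero_add, ← mul_assoc,
      ← pow_add, k]
    by_cases c : 2 * l.length + 20 ≤ j
    · rw [if_pos ((mem_attachFin _).2 (mem_Ico.2 ⟨c, by omega⟩))]; simp [c]; ring
    · rw [if_neg fun h => c (mem_Ico.1 ((mem_attachFin _).1 h)).1]; simp [c]; ring
  · rw [tr (fun j => bin (l.getD j [])) z, sz, pow_add, mul_comm]
    refine lt_of_le_of_lt (sum_le_card_nsmul _ _ (2 ^ (l.map List.length).sum) fun j _ =>
      (bin_lt _).le.trans (Nat.pow_le_pow_right (by omega) (le j))) ?_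
    rw [card_range, smul_eq_mul]
    exact Nat.mul_lt_mul_of_pos_right Nat.lt_two_pow_self (by positivity)

theorem result : ∀ L : List Bool → Prop, InNP L → ∃ f : List Bool → List (List Bool),
    PolyTime id bits f ∧ ∀ x, (∀ b ∈ f x, b.getLast? = some true) ∧ (L x ↔ Yes (f x)) :=
  (hard_PART.red (Val' := fun y => ∀ b ∈ y, b.getLast? = some true) red (by unfold red sz; fun_prop) fun l _ => ⟨fun b hb => by
    obtain ⟨j, _, rfl⟩ := List.mem_map.1 hb
    rw [← List.cons_append, ← List.append_assoc, List.getLast?_append]; rfl, correct l⟩).unfold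

end Pool.Agent.Results.MP_5b98da_lc.NPHard
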